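import Mathlib

/-!
Even feedback vertex sets bound the number of regular models of a finite ground normal
program: at most `2 ^ |U|` regular models, with no tightness assumption.
-/

namespace Pool.Agent.Results.MP_9cfc50_lc.RegularBound

variable {α : Type*}

/-- A ground normal rule `head ← b₁, …, bₘ, ¬c₁, …, ¬cₙ`; `pos` is the set of the `bᵢ`
and `neg` is the set of the `cⱼ`. -/
structure Rule (α : Type*) where
  head : α
  pos : Finset α
  neg : Finset α

/-- `Arc P false u v`: positive arc `u → v` of the atom dependency graph of `P`;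
`Arc P true u v`: negative arc `u → v`. -/
def Arc (P : Finset (Rule α)) (negative : Bool) (u v : α) : Prop :=
  ∃ r ∈ P, r.head = v ∧ u ∈ (if negative = true then r.neg else r.pos)

/-- `U` meets every even cycle of the atom dependency graph of `P`.  A cycle is a cyclic
sequence of `n + 1 ≥ 1` distinct atoms `v 0 → v 1 → ⋯ → v n → v 0` with a chosen arc (sign
`s i`) at each step; it is even if the number of negative arcs is even. -/
def MeetsEveryEvenCycle (P : Finset (Rule α)) (U : Finset α) : Prop :=
  ∀ (n : ℕ) (v : Fin (n + 1) → α) (s : Fin (n + 1) → Bool), Function.Injective v →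
    (∀ i, Arc P (s i) (v i) (v (i + 1))) →
    Even (Finset.univ.filter fun i => s i = true).card → ∃ i, v i ∈ U

/-- A three-valued interpretation: every atom has value `0`, `1/2` or `1`. -/
def ThreeValued (I : α → ℚ) : Prop :=
  ∀ a, I a = 0 ∨ I a = 1 / 2 ∨ I a = 1

/-- The value under `J` of the body of `r` in the reduct with respect to `I`: the minimum of
`1`, the `J b` for positive body atoms `b` and the constants `1 - I c` for negated atoms `c`. -/
def bodyValue (I J : α → ℚ) (r : Rule α) : ℚ :=
  min (r.pos.fold min 1 J) (r.neg.fold min 1 fun c => 1 - I c)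

/-- `J` is a three-valued model of the reduct `P^I`. -/
def IsReductModel (P : Finset (Rule α)) (I J : α → ℚ) : Prop :=
  ThreeValued J ∧ ∀ r ∈ P, bodyValue I J r ≤ J r.head

/-- `I` is a stable three-valued model: `I` is the least (pointwise truth order) three-valued
model of the reduct `P^I`, that is `Γ(I) = I`. -/
def IsStablePartialModel (P : Finset (Rule α)) (I : α → ℚ) : Prop :=
  IsLeast {J | IsReductModel P I J} I

/-- The information order `I ≤ₖ J`. -/
def InfoLE (I J : α → ℚ) : Prop :=
  ∀ a, I a ≠ 1 / 2 → J a = I a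

/-- A regular model: a stable three-valued model that is maximal for the information order
among the stable three-valued models. -/
def IsRegularModel (P : Finset (Rule α)) (I : α → ℚ) : Prop :=
  IsStablePartialModel P I ∧ ∀ J, IsStablePartialModel P J → InfoLE I J → J = I

theorem le_body {I J : α → ℚ} {r : Rule α} {t : ℚ} :
    t ≤ bodyValue I J r ↔ t ≤ 1 ∧ (∀ b ∈ r.pos, t ≤ J b) ∧ ∀ c ∈ r.neg, t ≤ 1 - I c := by
  simp only [bodyValue, le_min_iff, Finset.le_fold_min]
  tauto

theorem body_le {I J : α → ℚ} {r : Rule α} {t : ℚ} :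
    bodyValue I J r ≤ t ↔ 1 ≤ t ∨ (∃ b ∈ r.pos, J b ≤ t) ∨ ∃ c ∈ r.neg, 1 - I c ≤ t := by
  simp only [bodyValue, min_le_iff, Finset.fold_min_le]
  constructor
  · rintro ((h | h) | h | h)
    exacts [Or.inl h, Or.inr (Or.inl h), Or.inl h, Or.inr (Or.inr h)]
  · rintro (h | h | h)
    exacts [Or.inl (Or.inl h), Or.inl (Or.inr h), Or.inr (Or.inr h)]

theorem body_mono {I J J' : α → ℚ} (h : J ≤ J') (r : Rule α) :
    bodyValue I J r ≤ bodyValue I J' r := by
  obtain ⟨h1, h2, h3⟩ := le_body.1 (le_refl (bodyValue I J r))
  exact le_body.2 ⟨h1, fun b hb => (h2 b hb).trans (h b), h3⟩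

theorem threeValued_finite [Fintype α] : {I : α → ℚ | ThreeValued I}.Finite := by
  classical
  refine (Fintype.piFinset fun _ : α => ({0, 1 / 2, 1} : Finset ℚ)).finite_toSet.subset ?_
  intro I hI
  simp only [Finset.mem_coe, Fintype.mem_piFinset, Finset.mem_insert, Finset.mem_singleton]
  exact hI

theorem threeValued_min {J K : α → ℚ} (hJ : ThreeValued J) (hK : ThreeValued K) :
    ThreeValued fun a => min (J a) (K a) := fun a => by
  rcases min_choice (J a) (K a) with h | h <;> simp only [h]
  · exact hJ a
  · exact hK a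

/-- The reduct has a least three-valued model. -/
theorem exists_least [Fintype α] (P : Finset (Rule α)) (I : α → ℚ) :
    ∃ L, IsLeast {J | IsReductModel P I J} L := by
  have hfin : {J | IsReductModel P I J}.Finite := threeValued_finite.subset fun J hJ => hJ.1
  have hne : {J | IsReductModel P I J}.Nonempty :=
    ⟨fun _ => 1, fun _ => Or.inr (Or.inr rfl), fun r _ => body_le.2 (Or.inl le_rfl)⟩
  obtain ⟨L, hL, hmin⟩ := hfin.exists_minimal hne
  refine ⟨L, hL, fun J hJ => ?_⟩
  have hM : IsReductModel P I fun a => min (L a) (J a) := by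
    refine ⟨threeValued_min hL.1 hJ.1, fun r hr => le_min ?_ ?_⟩
    · exact (body_mono (fun a => min_le_left _ _) r).trans (hL.2 r hr)
    · exact (body_mono (fun a => min_le_right _ _) r).trans (hJ.2 r hr)
  have := hmin hM (fun a => min_le_left _ _)
  exact fun a => (this a).trans (min_le_right _ _)

/-- An atom true in the least model has a rule whose body is true. -/
theorem supported {P : Finset (Rule α)} {I L : α → ℚ} (hI : ThreeValued I)
    (hL : IsLeast {J | IsReductModel P I J} L) {a : α} (ha : L a = 1) :
    ∃ r ∈ P, r.head = a ∧ (∀ b ∈ r.pos, L b = 1) ∧ ∀ c ∈ r.neg, I c = 0 := by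
  classical
  by_contra hcon
  push Not at hcon
  have hle : Function.update L a (1 / 2) ≤ L := by
    intro b
    by_cases hb : b = a
    · subst hb; simp only [Function.update_self, ha]; norm_num
    · simp [Function.update_of_ne hb]
  have hM : IsReductModel P I (Function.update L a (1 / 2)) := by
    refine ⟨fun b => ?_, fun r hr => (body_mono hle r).trans ?_⟩
    · by_cases hb : b = a
      · subst hb; simp
      · simpa [Function.update_of_ne hb] using hL.1.1 b
    · by_cases hh : r.head = a
      · rw [hh, Function.update_self, body_le]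
        by_cases hp : ∀ b ∈ r.pos, L b = 1
        · obtain ⟨c, hc, hc0⟩ := hcon r hr hh hp
          refine Or.inr (Or.inr ⟨c, hc, ?_⟩)
          rcases hI c with h | h | h
          · exact absurd h hc0
          · rw [h]; norm_num
          · rw [h]; norm_num
        · push Not at hp
          obtain ⟨b, hb, hb1⟩ := hp
          refine Or.inr (Or.inl ⟨b, hb, ?_⟩)
          rcases hL.1.1 b with h | h | h
          · rw [h]; norm_num
          · rw [h]
          · exact absurd h hb1
      · rw [Function.update_of_ne hh]; exact hL.1.2 r hr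
  have := hL.2 hM a
  rw [Function.update_self, ha] at this
  norm_num at this

/-- An atom false in a model has a false literal in the body of each of its rules. -/
theorem refuted {P : Finset (Rule α)} {I L : α → ℚ} (hI : ThreeValued I)
    (hL : IsReductModel P I L) {r : Rule α} (hr : r ∈ P) (ha : L r.head = 0) :
    (∃ b ∈ r.pos, L b = 0) ∨ ∃ c ∈ r.neg, I c = 1 := by
  have h := hL.2 r hr
  rw [ha, body_le] at h
  rcases h with h | ⟨b, hb, h⟩ | ⟨c, hc, h⟩
  · norm_num at h
  · refine Or.inl ⟨b, hb, ?_⟩
    rcases hL.1 b with h' | h' | h'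
    · exact h'
    · rw [h'] at h; norm_num at h
    · rw [h'] at h; norm_num at h
  · refine Or.inr ⟨c, hc, ?_⟩
    rcases hI c with h' | h' | h'
    · rw [h'] at h; norm_num at h
    · rw [h'] at h; norm_num at h
    · exact h'

/-- The operator `Γ` is monotone for the information order. -/
theorem least_infoLE {P : Finset (Rule α)} {I I' L L' : α → ℚ} (hI : ThreeValued I)
    (hII' : InfoLE I I') (hL : IsLeast {J | IsReductModel P I J} L)
    (hL' : IsLeast {J | IsReductModel P I' J} L') : InfoLE L L' := by
  classical
  have one : ∀ a, L a = 1 → L' a = 1 := by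
    have hM : IsReductModel P I fun a => min (L a) (if L' a = 1 then 1 else 1 / 2) := by
      refine ⟨threeValued_min hL.1.1 fun a => ?_, fun r hr => le_min ?_ ?_⟩
      · split_ifs <;> simp
      · exact (body_mono (fun a => min_le_left _ _) r).trans (hL.1.2 r hr)
      · split_ifs with h
        · exact body_le.2 (Or.inl le_rfl)
        · by_contra hlt
          apply h
          have hge : (1 : ℚ) ≤ bodyValue I' L' r := by
            rw [body_le] at hlt
            push Not at hlt
            obtain ⟨-, h2, h3⟩ := hlt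
            refine le_body.2 ⟨le_rfl, fun b hb => ?_, fun c hc => ?_⟩
            · have := (lt_min_iff.1 (h2 b hb)).2
              split_ifs at this with hb1
              · exact hb1.ge
              · exact absurd this (lt_irrefl _)
            · have h4 := h3 c hc
              have h5 : I c = 0 := by
                rcases hI c with h' | h' | h'
                · exact h'
                · rw [h'] at h4; norm_num at h4
                · rw [h'] at h4; norm_num at h4
              rw [hII' c (by rw [h5]; norm_num), h5]; norm_num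
          have h6 := hge.trans (hL'.1.2 r hr)
          rcases hL'.1.1 r.head with h' | h' | h'
          · rw [h'] at h6; norm_num at h6
          · rw [h'] at h6; norm_num at h6
          · exact h'
    intro a ha
    have := (hL.2 hM a).trans (min_le_right _ _)
    by_contra h
    rw [if_neg h, ha] at this
    norm_num at this
  have zero : ∀ a, L a = 0 → L' a = 0 := by
    have hM : IsReductModel P I' fun a => min (L' a) (if L a = 0 then 0 else 1) := by
      refine ⟨threeValued_min hL'.1.1 fun a => ?_, fun r hr => le_min ?_ ?_⟩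
      · split_ifs <;> simp
      · exact (body_mono (fun a => min_le_left _ _) r).trans (hL'.1.2 r hr)
      · split_ifs with h
        · rcases refuted hI hL.1 hr h with ⟨b, hb, hb0⟩ | ⟨c, hc, hc1⟩
          · refine body_le.2 (Or.inr (Or.inl ⟨b, hb, ?_⟩))
            rw [if_pos hb0]; exact min_le_right _ _
          · refine body_le.2 (Or.inr (Or.inr ⟨c, hc, ?_⟩))
            rw [hII' c (by rw [hc1]; norm_num), hc1]; norm_num
        · exact body_le.2 (Or.inl le_rfl)
    intro a ha
    have := (hL'.2 hM a).trans (min_le_right _ _)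
    rw [if_pos ha] at this
    rcases hL'.1.1 a with h' | h' | h'
    · exact h'
    · rw [h'] at this; norm_num at this
    · rw [h'] at this; norm_num at this
  intro a ha
  rcases hL.1.1 a with h | h | h
  · rw [zero a h, h]
  · exact absurd h ha
  · rw [one a h, h]

theorem InfoLE.trans {I J K : α → ℚ} (h : InfoLE I J) (h' : InfoLE J K) : InfoLE I K :=
  fun a ha => by rw [h' a (by rw [h a ha]; exact ha), h a ha]

/-- Above every `K` with `K ≤ₖ Γ(K)` lies a stable three-valued model. -/
theorem exists_stable_above [Fintype α] (P : Finset (Rule α)) {K G : α → ℚ}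
    (hK : ThreeValued K) (hG : IsLeast {J | IsReductModel P K J} G) (hKG : InfoLE K G) :
    ∃ X, IsStablePartialModel P X ∧ InfoLE K X := by
  classical
  set S : Set (α → ℚ) := {X | ThreeValued X ∧ InfoLE K X ∧
    ∃ Y, IsLeast {J | IsReductModel P X J} Y ∧ InfoLE X Y} with hS
  have hfin : S.Finite := threeValued_finite.subset fun X hX => hX.1
  have hne : S.Nonempty := ⟨K, hK, fun _ _ => rfl, G, hG, hKG⟩
  obtain ⟨X, ⟨hX3, hKX, Y, hY, hXY⟩, hmax⟩ := hfin.exists_maximalFor
    (fun X : α → ℚ => Finset.univ.filter fun a => X a ≠ 1 / 2) S hne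
  obtain ⟨Z, hZ⟩ := exists_least P Y
  have hYS : Y ∈ S := ⟨hY.1.1, hKX.trans hXY, Z, hZ, least_infoLE hX3 hXY hY hZ⟩
  have hsub : (Finset.univ.filter fun a => X a ≠ 1 / 2) ≤
      Finset.univ.filter fun a => Y a ≠ 1 / 2 := by
    intro a ha
    simp only [Finset.mem_filter, Finset.mem_univ, true_and] at ha ⊢
    rw [hXY a ha]; exact ha
  have hsub' := hmax hYS hsub
  have hYX : Y = X := by
    funext a
    by_cases ha : X a = 1 / 2
    · by_contra hne'
      have : a ∈ Finset.univ.filter fun a => Y a ≠ 1 / 2 := by
        simp only [Finset.mem_filter, Finset.mem_univ, true_and]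
        rw [← ha]; exact hne'
      have := hsub' this
      simp only [Finset.mem_filter, Finset.mem_univ, true_and] at this
      exact this ha
    · exact hXY a ha
  subst hYX
  exact ⟨Y, hY, hKX⟩

/-- Two distinct regular models give opposite two-valued values to some atom. -/
theorem conflict_of_ne [Fintype α] {P : Finset (Rule α)} {I J : α → ℚ}
    (hI : IsRegularModel P I) (hJ : IsRegularModel P J) (hne : I ≠ J) :
    ∃ a, (I a = 1 ∧ J a = 0) ∨ (I a = 0 ∧ J a = 1) := by
  classical
  by_contra hcon
  push Not at hcon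
  have hI3 : ThreeValued I := hI.1.1.1
  have hJ3 : ThreeValued J := hJ.1.1.1
  set K : α → ℚ := fun a => if I a = 1 / 2 then J a else I a with hKdef
  have hK3 : ThreeValued K := fun a => by
    simp only [hKdef]
    split_ifs
    · exact hJ3 a
    · exact hI3 a
  have hIK : InfoLE I K := fun a ha => by simp only [hKdef, if_neg ha]
  have hJK : InfoLE J K := fun a ha => by
    simp only [hKdef]
    split_ifs with h
    · rfl
    · obtain ⟨h1, h2⟩ := hcon a
      rcases hI3 a with h3 | h3 | h3
      · rcases hJ3 a with h4 | h4 | h4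
        · rw [h3, h4]
        · exact absurd h4 ha
        · exact absurd h4 (h2 h3)
      · exact absurd h3 h
      · rcases hJ3 a with h4 | h4 | h4
        · exact absurd h4 (h1 h3)
        · exact absurd h4 ha
        · rw [h3, h4]
  obtain ⟨G, hG⟩ := exists_least P K
  have hIG : InfoLE I G := least_infoLE hI3 hIK hI.1 hG
  have hJG : InfoLE J G := least_infoLE hJ3 hJK hJ.1 hG
  have hKG : InfoLE K G := fun a ha => by
    by_cases h : I a = 1 / 2
    · have hk : K a = J a := by simp only [hKdef, if_pos h]
      rw [hk] at ha ⊢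
      exact hJG a ha
    · have hk : K a = I a := by simp only [hKdef, if_neg h]
      rw [hk]
      exact hIG a h
  obtain ⟨X, hX, hKX⟩ := exists_stable_above P hK3 hG hKG
  exact hne ((hI.2 X hX (hIK.trans hKX)).symm.trans (hJ.2 X hX (hJK.trans hKX)))

/-- A cyclic two-colouring changes colour an even number of times. -/
theorem even_changes (n : ℕ) (c : Fin (n + 1) → Bool) :
    Even (Finset.univ.filter fun i => (c i != c (i + 1)) = true).card := by
  rw [← ZMod.natCast_eq_zero_iff_even, Finset.card_filter, Nat.cast_sum]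
  have h1 : ∀ i, (((if (c i != c (i + 1)) = true then 1 else 0 : ℕ) : ℕ) : ZMod 2) =
      (if c i = true then 1 else 0) + (if c (i + 1) = true then 1 else 0) := by
    intro i
    cases c i <;> cases c (i + 1) <;> decide
  rw [Finset.sum_congr rfl fun i _ => h1 i, Finset.sum_add_distrib]
  have h2 := Equiv.sum_comp (Equiv.addRight (1 : Fin (n + 1)))
    fun i => (if c i = true then 1 else 0 : ZMod 2)
  simp only [Equiv.coe_addRight] at h2
  exact (congrArg (_ + ·) h2).trans (CharTwo.add_self_eq_zero _)

/-- If every element of a nonempty set `D` has an in-neighbour in `D` along an arc whose sign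
records the change of colour, then `D` contains an even cycle. -/
theorem exists_mem_of_pred [Fintype α] {P : Finset (Rule α)} {U : Finset α}
    (hU : MeetsEveryEvenCycle P U) (D : Set α) (hD : D.Nonempty) (c : α → Bool)
    (hpred : ∀ a ∈ D, ∃ b ∈ D, Arc P (c b != c a) b a) : ∃ a ∈ D, a ∈ U := by
  classical
  have : Nonempty D := hD.to_subtype
  choose g hgD hg using hpred
  let f : D → D := fun a => ⟨g a.1 a.2, hgD a.1 a.2⟩
  obtain ⟨x, hx⟩ : (Function.periodicPts f).Nonempty := by
    obtain ⟨y⟩ := this
    obtain ⟨m, n, hmn, h⟩ := Finite.exists_ne_map_eq_of_infinite fun k : ℕ => f^[k] y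
    wlog hlt : m < n generalizing m n
    · exact this n m hmn.symm h.symm (lt_of_le_of_ne (not_lt.1 hlt) hmn.symm)
    refine ⟨f^[m] y, n - m, Nat.sub_pos_of_lt hlt, ?_⟩
    show f^[n - m] (f^[m] y) = f^[m] y
    rw [← Function.iterate_add_apply, Nat.sub_add_cancel hlt.le]
    exact h.symm
  have hpos := Function.minimalPeriod_pos_of_mem_periodicPts hx
  obtain ⟨n, hn⟩ : ∃ n, Function.minimalPeriod f x = n + 1 := ⟨_, (Nat.succ_pred_eq_of_pos hpos).symm⟩
  let v : Fin (n + 1) → α := fun i => (f^[n - i] x : D)
  have hstep : ∀ i : Fin (n + 1), f (f^[n - (i + 1 : Fin (n + 1))] x) = f^[n - i] x := by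
    intro i
    rw [← Function.iterate_succ_apply' f]
    by_cases hi : i = Fin.last n
    · subst hi
      have := Function.iterate_minimalPeriod (f := f) (x := x)
      rw [hn] at this
      simpa using this
    · have hi' : (i : ℕ) < n := Fin.val_lt_last hi
      have : ((i + 1 : Fin (n + 1)) : ℕ) = i + 1 := Fin.val_add_one_of_lt (Fin.lt_last_iff_ne_last.2 hi)
      rw [this]
      congr 1
      omega
  have hinj : Function.Injective v := by
    intro i j hij
    have h1 : f^[n - i] x = f^[n - j] x := Subtype.ext hij
    have h2 := Function.iterate_injOn_Iio_minimalPeriod (f := f) (x := x)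
      (x₁ := n - i) (by rw [hn]; simp only [Set.mem_Iio]; omega)
      (x₂ := n - j) (by rw [hn]; simp only [Set.mem_Iio]; omega) h1
    have := i.2
    have := j.2
    exact Fin.ext (by omega)
  have harc : ∀ i, Arc P (c (v i) != c (v (i + 1))) (v i) (v (i + 1)) := by
    intro i
    have h1 : v i = g (v (i + 1)) (f^[n - (i + 1 : Fin (n + 1))] x).2 :=
      congrArg Subtype.val (hstep i).symm
    have h2 := hg (v (i + 1)) (f^[n - (i + 1 : Fin (n + 1))] x).2
    rw [← h1] at h2
    exact h2
  obtain ⟨i, hi⟩ := hU n v (fun i => c (v i) != c (v (i + 1))) hinj harc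
    (even_changes n fun i => c (v i))
  exact ⟨v i, (f^[n - i] x).2, hi⟩

/-- Two conflicting stable three-valued models conflict on `U`. -/
theorem conflict_on [Fintype α] {P : Finset (Rule α)} {U : Finset α}
    (hU : MeetsEveryEvenCycle P U) {I J : α → ℚ}
    (hI : IsStablePartialModel P I) (hJ : IsStablePartialModel P J)
    (h : ∃ a, (I a = 1 ∧ J a = 0) ∨ (I a = 0 ∧ J a = 1)) :
    ∃ a ∈ U, (I a = 1 ∧ J a = 0) ∨ (I a = 0 ∧ J a = 1) := by
  classical
  have hI3 : ThreeValued I := hI.1.1
  have hJ3 : ThreeValued J := hJ.1.1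
  obtain ⟨a, ha, haU⟩ := exists_mem_of_pred hU {a | (I a = 1 ∧ J a = 0) ∨ (I a = 0 ∧ J a = 1)} h
    (fun a => decide (I a = 1)) (by
      rintro a (⟨h1, h0⟩ | ⟨h0, h1⟩)
      · obtain ⟨r, hr, rfl, hp, hn⟩ := supported hI3 hI h1
        rcases refuted hJ3 hJ.1 hr h0 with ⟨b, hb, hb0⟩ | ⟨b, hb, hb1⟩
        · exact ⟨b, Or.inl ⟨hp b hb, hb0⟩, r, hr, rfl, by simpa [h1, hp b hb] using hb⟩
        · exact ⟨b, Or.inr ⟨hn b hb, hb1⟩, r, hr, rfl, by simpa [h1, hn b hb] using hb⟩
      · obtain ⟨r, hr, rfl, hp, hn⟩ := supported hJ3 hJ h1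
        rcases refuted hI3 hI.1 hr h0 with ⟨b, hb, hb0⟩ | ⟨b, hb, hb1⟩
        · exact ⟨b, Or.inr ⟨hb0, hp b hb⟩, r, hr, rfl, by simpa [h0, hb0] using hb⟩
        · exact ⟨b, Or.inl ⟨hb1, hn b hb⟩, r, hr, rfl, by simpa [h0, hb1] using hb⟩)
  exact ⟨a, haU, ha⟩

/-- Every finite ground normal program `P` has at most `2 ^ |U|` regular models, for every set
`U` of atoms meeting every even cycle of its atom dependency graph. -/
theorem result {α : Type*} [Fintype α] (P : Finset (Rule α)) (U : Finset α)
    (hU : MeetsEveryEvenCycle P U) :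
    {I : α → ℚ | IsRegularModel P I}.encard ≤ ((2 ^ U.card : ℕ) : ℕ∞) := by
  classical
  rw [← Finset.card_powerset, ← Set.encard_coe_eq_coe_finsetCard]
  refine Set.encard_le_encard_of_injOn (f := fun I : α → ℚ => U.filter fun a => I a = 1) ?_ ?_
  · intro I _
    simp only [Finset.coe_powerset, Set.mem_preimage, Set.mem_powerset_iff, Finset.coe_subset]
    exact Finset.filter_subset _ _
  · intro I hI J hJ hIJ
    by_contra hne
    obtain ⟨a, haU, ha⟩ := conflict_on hU hI.1 hJ.1 (conflict_of_ne hI hJ hne)
    have h1 : a ∈ U.filter (fun a => I a = 1) ↔ a ∈ U.filter (fun a => J a = 1) := by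
      rw [show U.filter (fun a => I a = 1) = U.filter (fun a => J a = 1) from hIJ]
    simp only [Finset.mem_filter, haU, true_and] at h1
    rcases ha with ⟨h2, h3⟩ | ⟨h2, h3⟩
    · rw [h1.1 h2] at h3; norm_num at h3
    · rw [h1.2 h3] at h2; norm_num at h2

end Pool.Agent.Results.MP_9cfc50_lc.RegularBound
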